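import Pool.Agent.P.MP_0963f7_co.Forest

namespace Pool.Agent.Results.MP_0963f7_co.ForestClass

open Pool.Agent.P.MP_0963f7_co

/-- A poset with `n ≥ 2` elements obtained from a rooted forest `Q` by replacing every element
by a nonempty poset, with a unique minimal element over every leaf of `Q`, has at most as many
tangled labelings as quasi-tangled labelings. -/
theorem result (P Q : Type) [Fintype P] [PartialOrder P] [PartialOrder Q] (φ : P → Q)
    (hQ : ∀ q : Q, ¬ IsMax q → ∃! q', q ⋖ q') (hsurj : Function.Surjective φ)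
    (hord : ∀ x y, φ x ≠ φ y → (x < y ↔ φ x < φ y))
    (hleaf : ∀ l : Q, IsMin l → ∃! m, Minimal (fun a => φ a = l) m) (hn : 2 ≤ Fintype.card P) :
    {L : P → ℕ | IsLabeling L ∧ HasSortingTime L (Fintype.card P - 1)}.ncard ≤
      {L : P → ℕ | IsLabeling L ∧ HasSortingTime L (Fintype.card P - 2)}.ncard :=
  forest_main P Q φ hQ hsurj hord hleaf hn

end Pool.Agent.Results.MP_0963f7_co.ForestClass
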